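import Pool.Agent.Work.MP_7b0bad_ag.S2.All
import Pool.Agent.Work.MP_7b0bad_ag.AL.All

set_option autoImplicit false

namespace Pool.Agent.Results.MP_7b0bad_ag.Alternating

/-- the extension `L` of `k(x)` is unramified outside infinity -/
def Unr (k : Type) [Field k] (L : Type) [Field L] [Algebra (RatFunc k) L] : Prop :=
  ∀ A : ValuationSubring L,
    (∀ c : k, algebraMap (RatFunc k) L (algebraMap k (RatFunc k) c) ∈ A) →
    algebraMap (RatFunc k) L RatFunc.X ∈ A →
    ValuationSubring.inertiaSubgroup (RatFunc k) A = ⊥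

/-- `I` is an inertia group of `L` over infinity -/
def InertiaAt (k : Type) [Field k] (L : Type) [Field L] [Algebra (RatFunc k) L]
    (I : Subgroup (L ≃ₐ[RatFunc k] L)) : Prop :=
  ∃ A : ValuationSubring L,
    (∀ c : k, algebraMap (RatFunc k) L (algebraMap k (RatFunc k) c) ∈ A) ∧
    algebraMap (RatFunc k) L RatFunc.X ∉ A ∧
    (ValuationSubring.inertiaSubgroup (RatFunc k) A).map
        (ValuationSubring.decompositionSubgroup (RatFunc k) A).subtype = I

/-- `G₀` is an inertia group over infinity of a `G`-Galois cover of the line over `k` unramified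
outside infinity (the existence statement of the frozen statement `S00269`). -/
def Occ (k : Type) [Field k] (G : Type) [Group G] (G₀ : Subgroup G) : Prop :=
  ∃ (L : Type) (_ : Field L) (_ : Algebra (RatFunc k) L),
    FiniteDimensional (RatFunc k) L ∧ IsGalois (RatFunc k) L ∧
    ∃ φ : G ≃* (L ≃ₐ[RatFunc k] L), Unr k L ∧ InertiaAt k L (G₀.map φ.toMonoidHom)

/-- The hypotheses of the problem on `G₁ ≤ G₀ ≤ G` and the condition of the conjecture:
`G₁` is a `p`-group, normal in `G₀`, with `G₀ / G₁` cyclic of order prime to `p`, and the conjugates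
of `G₁` generate `G`. -/
def Hyp (p : ℕ) {G : Type} [Group G] (G₁ G₀ : Subgroup G) : Prop :=
  G₁ ≤ G₀ ∧ (G₁.subgroupOf G₀).Normal ∧ IsPGroup p G₁ ∧ Nat.Coprime (G₁.subgroupOf G₀).index p ∧
    (∃ g : G, G₁ ⊔ Subgroup.zpowers g = G₀) ∧ Subgroup.normalClosure (G₁ : Set G) = ⊤

/-- For every point `x` moved by `u` whose `g`-cycle has length `m > 1`: `u` moves at least
`2 m + 4` points or fixes at least `m` points. -/
def Room {n : ℕ} (u g : Equiv.Perm (Fin n)) : Prop :=
  ∀ x : Fin n, u x ≠ x → 1 < Function.minimalPeriod g x →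
    2 * Function.minimalPeriod g x + 4 ≤ u.support.card ∨
      Function.minimalPeriod g x + u.support.card ≤ n

/-- The condition on the generator `c` of `G₀` modulo `G₁`, one prime `r` at a time: the elements of
`r`-power order of `⟨c⟩` normalise a subgroup `⟨x⟩ ≤ G₁` of order `p`. If `r = 2` (so `p` is odd),
`x` is a `p`-cycle; if `p = 2` and `r ≥ 5` is a Fermat prime, then `Room` holds. -/
def SylCond (p : ℕ) {n : ℕ} {X : Subgroup (Equiv.Perm (Fin n))} (G₁ : Subgroup X) (c : X) : Prop :=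
  ∀ r : ℕ, r.Prime → r ∣ orderOf c → ∃ x ∈ G₁, orderOf x = p ∧
    (r = 2 → (x : Equiv.Perm (Fin n)).IsCycle) ∧
    ∀ g ∈ Subgroup.zpowers c, (∃ m : ℕ, g ^ r ^ m = 1) → (∃ a : ℕ, g * x * g⁻¹ = x ^ a) ∧
      (p = 2 → 5 ≤ r → (∃ j : ℕ, r = 2 ^ j + 1) →
        Room (x : Equiv.Perm (Fin n)) (g : Equiv.Perm (Fin n)))

/-- Abhyankar's inertia conjecture, with the tame part `G₀ / G₁`, for `X` the alternating or the
symmetric group of degree `n ≥ 5`: for odd `p` it holds if `n < 2 p`, and if `n < 3 p` and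
`G₀ / G₁` has odd order; for all `p` and `n` it holds if `SylCond` holds. -/
theorem result :
    ∀ (p : ℕ) (k : Type) [Field k] [IsAlgClosed k] [CharP k p], p.Prime → ∀ n : ℕ, 5 ≤ n →
    ∀ (X : Subgroup (Equiv.Perm (Fin n))), alternatingGroup (Fin n) ≤ X →
    ∀ (G₀ G₁ : Subgroup X), Hyp p G₁ G₀ →
      (p ≠ 2 → n < 2 * p → Occ k X G₀) ∧
      (p ≠ 2 → n < 3 * p → Odd (G₁.subgroupOf G₀).index → Occ k X G₀) ∧
      ∀ c : X, ¬ p ∣ orderOf c → G₀ = G₁ ⊔ Subgroup.zpowers c → SylCond p G₁ c →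
        Occ k X G₀ := by
  intro p k _ _ _ hp n hn X hX G₀ G₁ h
  exact MP7b0bad.S2.alt_main MP7b0bad.all_T0 MP7b0bad.AL.all_ALfin MP7b0bad.AL.all_ALred
    MP7b0bad.MT.all_ANred (MP7b0bad.S2.all_SFin_of MP7b0bad.MT.all_MRz) p k hp n hn X hX G₀ G₁ h

end Pool.Agent.Results.MP_7b0bad_ag.Alternating
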