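import Pool.Agent.Work.MP_7b0bad_ag.FA.All

set_option autoImplicit false

namespace Pool.Agent.Results.MP_7b0bad_ag.KnownPieces

/-- the extension `L` of `k(x)` is unramified outside infinity -/
def Unr (k : Type) [Field k] (L : Type) [Field L] [Algebra (RatFunc k) L] : Prop :=
  ∀ A : ValuationSubring L,
    (∀ c : k, algebraMap (RatFunc k) L (algebraMap k (RatFunc k) c) ∈ A) →
    algebraMap (RatFunc k) L RatFunc.X ∈ A →
    ValuationSubring.inertiaSubgroup (RatFunc k) A = ⊥

/-- `I` is an inertia group of `L` over infinity -/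
def InertiaAt (k : Type) [Field k] (L : Type) [Field L] [Algebra (RatFunc k) L]
    (I : Subgroup (L ≃ₐ[RatFunc k] L)) : Prop :=
  ∃ A : ValuationSubring L,
    (∀ c : k, algebraMap (RatFunc k) L (algebraMap k (RatFunc k) c) ∈ A) ∧
    algebraMap (RatFunc k) L RatFunc.X ∉ A ∧
    (ValuationSubring.inertiaSubgroup (RatFunc k) A).map
        (ValuationSubring.decompositionSubgroup (RatFunc k) A).subtype = I

/-- `G₀` is an inertia group over infinity of a `G`-Galois cover of the line over `k` unramified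
outside infinity (the existence statement of the frozen statement `S00269`). -/
def Occ (k : Type) [Field k] (G : Type) [Group G] (G₀ : Subgroup G) : Prop :=
  ∃ (L : Type) (_ : Field L) (_ : Algebra (RatFunc k) L),
    FiniteDimensional (RatFunc k) L ∧ IsGalois (RatFunc k) L ∧
    ∃ φ : G ≃* (L ≃ₐ[RatFunc k] L), Unr k L ∧ InertiaAt k L (G₀.map φ.toMonoidHom)

/-- For every automorphism `φ ≠ 1` of `L` with `φ ^ p = 1` the group `L` is generated by the
elements fixed by `φ` and the `φ`-invariant subgroups of order prime to `p`. -/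
def InvariantGeneration (p : ℕ) (L : Type) [Group L] : Prop :=
  ∀ φ : L ≃* L, (∀ x, φ^[p] x = x) → (∃ x, φ x ≠ x) →
    Subgroup.closure {x : L | φ x = x ∨ ∃ A : Subgroup L, ¬ p ∣ Nat.card A ∧
      (∀ a ∈ A, φ a ∈ A) ∧ x ∈ A} = ⊤

/-- Covered simple groups: alternating groups, `PSL_2(F)` with `p ∣ |F| (|F| - 1)`, and groups with
`InvariantGeneration` (for example all groups of order prime to `p`). -/
def Covered (p : ℕ) (L : Type) [Group L] : Prop :=
  InvariantGeneration p L ∨ (∃ n : ℕ, 5 ≤ n ∧ Nonempty (L ≃* alternatingGroup (Fin n))) ∨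
  ∃ (F : Type) (_ : Field F) (_ : Finite F), p ∣ Nat.card F * (Nat.card F - 1) ∧
    Nonempty (L ≃* Matrix.ProjectiveSpecialLinearGroup (Fin 2) F)

/-- all nonabelian composition factors of `Y` of order divisible by `p` are covered -/
def FactorsCovered (p : ℕ) (Y : Type) [Group Y] : Prop :=
  ∀ (K : Subgroup Y) [K.Normal] (N L : Subgroup (Y ⧸ K)), N.Normal → L ≤ N →
    (L.subgroupOf N).Normal → IsSimpleGroup L → p ∣ Nat.card L →
    (∃ a b : L, a * b ≠ b * a) → Covered p L

/-- `Y` is `SL_n(F)` or `PSL_n(F)` and `p` divides `|F|` or `|F|^i - 1` for some `0 < i < n` -/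
def Linear (p : ℕ) (Y : Type) [Group Y] : Prop :=
  ∃ (F : Type) (_ : Field F) (_ : Finite F) (n i : ℕ), 0 < i ∧ i < n ∧
    (p ∣ Nat.card F ∨ p ∣ Nat.card F ^ i - 1) ∧
    (Nonempty (Y ≃* Matrix.SpecialLinearGroup (Fin n) F) ∨
      Nonempty (Y ≃* Matrix.ProjectiveSpecialLinearGroup (Fin n) F))

/-- `Y` is generated by the `Y`-conjugates of its subgroup `Q` -/
def ConjGen {G : Type} [Group G] (Q Y : Subgroup G) : Prop :=
  Q ≤ Y ∧ Subgroup.closure {g | ∃ x ∈ Y, ∃ q ∈ Q, g = x * q * x⁻¹} = Y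

/-- `G` is generated by the normaliser of `P`, the subgroups of order prime to `p` normalised by
`P`, and the subgroups `Y` that are generated by the `Y`-conjugates of a subgroup of `P` and for
which `FactorsCovered` or `Linear` holds (`Y = G` is allowed). -/
def KnownPieces (p : ℕ) {G : Type} [Group G] (P : Subgroup G) : Prop :=
  sSup {Y : Subgroup G | Y ≤ Subgroup.normalizer (P : Set G) ∨
    (¬ p ∣ Nat.card Y ∧ P ≤ Subgroup.normalizer (Y : Set G)) ∨
    ((FactorsCovered p Y ∨ Linear p Y) ∧ ∃ Q : Subgroup G, Q ≤ P ∧ ConjGen Q Y)} = ⊤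

/-- `c` has order prime to `p` and normalises `P`, and there are `Q ≤ P`, normalised by `c`, and
`H ≤ G` containing `Q` and `c` such that `H` is solvable and generated by the `H`-conjugates of `Q`,
or `Q ⟨c⟩` is an inertia group for `H`. -/
def TamePiece (k : Type) [Field k] (p : ℕ) {G : Type} [Group G] (P : Subgroup G) (c : G) : Prop :=
  ¬ p ∣ orderOf c ∧ (∀ g ∈ P, c * g * c⁻¹ ∈ P) ∧ ∃ Q H : Subgroup G, Q ≤ P ∧
    (∀ g ∈ Q, c * g * c⁻¹ ∈ Q) ∧ Q ⊔ Subgroup.zpowers c ≤ H ∧
    ((Group.IsSolvable H ∧ ConjGen Q H) ∨ Occ k H ((Q ⊔ Subgroup.zpowers c).subgroupOf H))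

/-- Abhyankar's inertia conjecture for `G` and `G₀ = P ⟨c₁ ⋯ c_m⟩`, `P = G₁`, where the `c_i` are
commuting tame pieces, for all finite groups `G` if `p = 2` and for all groups with known pieces if
`p` is odd.  For `m = 0` (`G₀ = G₁`) this is the purely wild part of the conjecture. -/
theorem result :
    ∀ (p : ℕ) (k : Type) [Field k] [IsAlgClosed k] [CharP k p], p.Prime →
    ∀ (G : Type) [Group G] [Finite G] (P : Subgroup G) (c : List G), IsPGroup p P →
      Subgroup.normalClosure (P : Set G) = ⊤ → (p ≠ 2 → KnownPieces p P) →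
      (∀ x ∈ c, ∀ y ∈ c, x * y = y * x) → (∀ x ∈ c, TamePiece k p P x) →
      Occ k G (P ⊔ Subgroup.zpowers c.prod) := by
  intro p k _ _ _ hp G _ _ P c hP hn hK hc hT
  have : Fact p.Prime := ⟨hp⟩
  refine (MP7b0bad.all_T0 k G _).1 (MP7b0bad.FA.all_FTame p k G P c hP hn ?_ hc ?_)
  · by_cases h2 : p = 2
    · refine eq_top_iff.2 (le_sSup (Or.inr (Or.inr ⟨Or.inl h2, P, le_rfl, le_top, ?_⟩)))
      have h3 : Subgroup.normalClosure (P : Set G) ≤ MP7b0bad.nclIn ⊤ P := by
        refine Subgroup.closure_mono ?_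
        intro g hg
        obtain ⟨q, hq, hqg⟩ := Group.mem_conjugatesOfSet_iff.1 hg
        obtain ⟨x, hx⟩ := isConj_iff.1 hqg
        exact ⟨x, Subgroup.mem_top x, q, hq, hx.symm⟩
      rw [hn] at h3
      exact eq_top_iff.2 h3
    · rw [← hK h2]
      refine le_antisymm ?_ ?_
      · rw [hK h2]
        exact le_top
      · refine sSup_le_sSup ?_
        rintro Y (hY | hY | ⟨hY, hQ⟩)
        · exact Or.inl hY
        · exact Or.inr (Or.inl hY)
        · refine Or.inr (Or.inr ⟨?_, hQ⟩)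
          rcases hY with hY | hY
          · exact Or.inr (Or.inr (Or.inl hY))
          · exact Or.inr (Or.inr (Or.inr hY))
  · intro x hx
    obtain ⟨h1, h2, Q, H, h3, h4, h5, h6⟩ := hT x hx
    refine ⟨h1, h2, Q, H, h3, h4, h5, ?_⟩
    rcases h6 with ⟨h6, -, h7⟩ | h6
    · exact Or.inl ⟨h6, h7⟩
    · exact Or.inr ((MP7b0bad.all_T0 k H _).2 h6)

end Pool.Agent.Results.MP_7b0bad_ag.KnownPieces
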