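import Pool.Agent.Work.MP_7b0bad_ag.Lin.All

set_option autoImplicit false

open Matrix

namespace Pool.Agent.Results.MP_7b0bad_ag.LinearTame

/-- the extension `L` of `k(x)` is unramified outside infinity -/
def Unr (k : Type) [Field k] (L : Type) [Field L] [Algebra (RatFunc k) L] : Prop :=
  ∀ A : ValuationSubring L,
    (∀ c : k, algebraMap (RatFunc k) L (algebraMap k (RatFunc k) c) ∈ A) →
    algebraMap (RatFunc k) L RatFunc.X ∈ A →
    ValuationSubring.inertiaSubgroup (RatFunc k) A = ⊥

/-- `I` is an inertia group of `L` over infinity -/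
def InertiaAt (k : Type) [Field k] (L : Type) [Field L] [Algebra (RatFunc k) L]
    (I : Subgroup (L ≃ₐ[RatFunc k] L)) : Prop :=
  ∃ A : ValuationSubring L,
    (∀ c : k, algebraMap (RatFunc k) L (algebraMap k (RatFunc k) c) ∈ A) ∧
    algebraMap (RatFunc k) L RatFunc.X ∉ A ∧
    (ValuationSubring.inertiaSubgroup (RatFunc k) A).map
        (ValuationSubring.decompositionSubgroup (RatFunc k) A).subtype = I

/-- `G₀` is an inertia group over infinity of a `G`-Galois cover of the line over `k` unramified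
outside infinity (the existence statement of the frozen statement `S00269`). -/
def Occ (k : Type) [Field k] (G : Type) [Group G] (G₀ : Subgroup G) : Prop :=
  ∃ (L : Type) (_ : Field L) (_ : Algebra (RatFunc k) L),
    FiniteDimensional (RatFunc k) L ∧ IsGalois (RatFunc k) L ∧
    ∃ φ : G ≃* (L ≃ₐ[RatFunc k] L), Unr k L ∧ InertiaAt k L (G₀.map φ.toMonoidHom)

/-- The hypotheses of the problem on `G₁ ≤ G₀ ≤ G` and the condition of the conjecture:
`G₁` is a `p`-group, normal in `G₀`, with `G₀ / G₁` cyclic of order prime to `p`, and the conjugates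
of `G₁` generate `G`. -/
def Hyp (p : ℕ) {G : Type} [Group G] (G₁ G₀ : Subgroup G) : Prop :=
  G₁ ≤ G₀ ∧ (G₁.subgroupOf G₀).Normal ∧ IsPGroup p G₁ ∧ Nat.Coprime (G₁.subgroupOf G₀).index p ∧
    (∃ g : G, G₁ ⊔ Subgroup.zpowers g = G₀) ∧ Subgroup.normalClosure (G₁ : Set G) = ⊤

/-- For a homomorphism `f` from `SL_n(F)` to `G`: `G₁` contains the image of the unipotent radical of
a maximal parabolic subgroup, that is, there is a subspace `W` of `F ^ n`, not `0` and not `F ^ n`,
such that `G₁` contains the images of all `g` with `(g - 1) F ^ n ≤ W` and `(g - 1) W = 0`. -/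
def HasRadical {n : ℕ} {F G : Type} [Field F] [Group G] (f : SpecialLinearGroup (Fin n) F →* G)
    (G₁ : Subgroup G) : Prop :=
  ∃ W : Submodule F (Fin n → F), W ≠ ⊥ ∧ W ≠ ⊤ ∧
    ∀ g : SpecialLinearGroup (Fin n) F, (∀ v, g.1 *ᵥ v - v ∈ W) → (∀ w ∈ W, g.1 *ᵥ w = w) →
      f g ∈ G₁

/-- Abhyankar's inertia conjecture, with the tame part `G₀ / G₁`, for a quotient `G` of `SL_n(F)` by
a central subgroup, `F` a finite field of characteristic `p`: existence holds if `n = 2`, so for
`SL_2(F)` and `PSL_2(F)`, and for all `n` it holds if `HasRadical f G₁`,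
in particular if `G₁` is a Sylow `p`-subgroup. -/
theorem result :
    ∀ (p : ℕ) (k : Type) [Field k] [IsAlgClosed k] [CharP k p], p.Prime →
    ∀ (F : Type) [Field F] [Finite F] [CharP F p] (n : ℕ) (G : Type) [Group G] [Finite G]
      (f : SpecialLinearGroup (Fin n) F →* G), Function.Surjective f →
      f.ker ≤ Subgroup.center (SpecialLinearGroup (Fin n) F) →
    ∀ (G₀ G₁ : Subgroup G), Hyp p G₁ G₀ → (n = 2 ∨ HasRadical f G₁) → Occ k G G₀ := by
  intro p k _ _ _ hp F _ _ _ n G _ _ f hf hker G₀ G₁ h hn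
  have hpF : Fact p.Prime := ⟨hp⟩
  refine (MP7b0bad.all_T0 k _ _).mp ?_
  by_cases h2 : n = 2
  · subst h2
    exact MP7b0bad.Lin.all_FTwo p k F G f hf hker G₀ G₁ h
  · obtain ⟨W, h0, h1, hU⟩ := hn.resolve_left h2
    exact MP7b0bad.Lin.all_FRad p k F n G f hf hker G₀ G₁ h W h0 h1 fun g hg => hU g hg.1 hg.2

end Pool.Agent.Results.MP_7b0bad_ag.LinearTame
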