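import Pool.Agent.Work.MP_7b0bad_ag.SV.Fin
import Pool.Agent.Work.MP_7b0bad_ag.SV.VAll
import Pool.Agent.Work.MP_7b0bad_ag.SV.GAll
import Pool.Agent.Work.MP_7b0bad_ag.SV.LAll

set_option autoImplicit false

namespace Pool.Agent.Results.MP_7b0bad_ag.SolvableNormal

/-- the extension `L` of `k(x)` is unramified outside infinity -/
def Unr (k : Type) [Field k] (L : Type) [Field L] [Algebra (RatFunc k) L] : Prop :=
  ∀ A : ValuationSubring L,
    (∀ c : k, algebraMap (RatFunc k) L (algebraMap k (RatFunc k) c) ∈ A) →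
    algebraMap (RatFunc k) L RatFunc.X ∈ A →
    ValuationSubring.inertiaSubgroup (RatFunc k) A = ⊥

/-- `I` is an inertia group of `L` over infinity -/
def InertiaAt (k : Type) [Field k] (L : Type) [Field L] [Algebra (RatFunc k) L]
    (I : Subgroup (L ≃ₐ[RatFunc k] L)) : Prop :=
  ∃ A : ValuationSubring L,
    (∀ c : k, algebraMap (RatFunc k) L (algebraMap k (RatFunc k) c) ∈ A) ∧
    algebraMap (RatFunc k) L RatFunc.X ∉ A ∧
    (ValuationSubring.inertiaSubgroup (RatFunc k) A).map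
        (ValuationSubring.decompositionSubgroup (RatFunc k) A).subtype = I

/-- `G₀` is an inertia group over infinity of a `G`-Galois cover of the line over `k` unramified
outside infinity (the existence statement of the frozen statement `S00269`). -/
def Occ (k : Type) [Field k] (G : Type) [Group G] (G₀ : Subgroup G) : Prop :=
  ∃ (L : Type) (_ : Field L) (_ : Algebra (RatFunc k) L),
    FiniteDimensional (RatFunc k) L ∧ IsGalois (RatFunc k) L ∧
    ∃ φ : G ≃* (L ≃ₐ[RatFunc k] L), Unr k L ∧ InertiaAt k L (G₀.map φ.toMonoidHom)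

/-- The hypotheses of the problem on `G₁ ≤ G₀ ≤ G` and the condition of the conjecture:
`G₁` is a `p`-group, normal in `G₀`, with `G₀ / G₁` cyclic of order prime to `p`, and the conjugates
of `G₁` generate `G`. -/
def Hyp (p : ℕ) {G : Type} [Group G] (G₁ G₀ : Subgroup G) : Prop :=
  G₁ ≤ G₀ ∧ (G₁.subgroupOf G₀).Normal ∧ IsPGroup p G₁ ∧ Nat.Coprime (G₁.subgroupOf G₀).index p ∧
    (∃ g : G, G₁ ⊔ Subgroup.zpowers g = G₀) ∧ Subgroup.normalClosure (G₁ : Set G) = ⊤

/-- no prime `r ≠ p` that divides the order of `N / [N, G]` divides the order of `G₀ / G₁` -/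
def Cop (p : ℕ) {G : Type} [Group G] (N G₁ G₀ : Subgroup G) : Prop :=
  ∀ r : ℕ, r.Prime → r ≠ p → r ∣ ⁅N, (⊤ : Subgroup G)⁆.relIndex N →
    ¬ r ∣ (G₁.subgroupOf G₀).index

/-- Abhyankar's inertia conjecture, with the tame part `G₀ / G₁`, modulo a solvable normal subgroup
`N`, if `N` satisfies `Cop` or `G` is solvable. For solvable `G` one can take `N = G`, so the
conjecture holds for all solvable groups. -/
theorem result :
    ∀ (p : ℕ) (k : Type) [Field k] [IsAlgClosed k] [CharP k p], p.Prime →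
    ∀ (G : Type) [Group G] [Finite G] (G₀ G₁ : Subgroup G), Hyp p G₁ G₀ →
      (Group.IsSolvable G → Occ k G G₀) ∧
      ∀ (N : Subgroup G) [N.Normal], Group.IsSolvable N → Cop p N G₁ G₀ →
        (Occ k G G₀ ↔ Occ k (G ⧸ N) (G₀.map (QuotientGroup.mk' N))) := by
  intro p k _ _ _ hp G _ _ G₀ G₁ h
  have : Fact p.Prime := ⟨hp⟩
  have hAx := MP7b0bad.GT.all_GAx p _ (MP7b0bad.SV.all_VRAx k p)
  refine ⟨fun hs => MP7b0bad.SVF.occ_solv k p MP7b0bad.all_T0 hAx MP7b0bad.GT.all_GSolv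
    MP7b0bad.GT.all_GHyp G G₀ G₁ h hs, ?_⟩
  intro N _ hs hc
  exact ⟨MP7b0bad.SVF.occ_quo k p MP7b0bad.all_T0 hAx G (G ⧸ N) (QuotientGroup.mk' N) G₀
      (QuotientGroup.mk'_surjective N),
    MP7b0bad.SVF.occ_main k p MP7b0bad.all_T0 hAx MP7b0bad.GT.all_GMain MP7b0bad.GT.all_GHyp
      G G₀ G₁ N h hs hc⟩

end Pool.Agent.Results.MP_7b0bad_ag.SolvableNormal
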